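import Mathlib
import Pool.Agent.Mos26.Sparse2

set_option autoImplicit false

open Finset Filter

namespace Pool.Agent.Results.MP_73ba67_nt.AlmostAll

open Classical in
/-- For every residue class `a` coprime to `q` and every `A` there are `k₀` and `C` such that for all
`x ≥ 2` all but at most `C x / (log x) ^ A` of the integers `n < x` have the following property: for
EVERY `k` with `k₀ ≤ k ≤ n / 2`, `binom(n, k)` has a prime divisor `p ≡ a (mod q)` with `p > k`. -/
theorem result : ∀ q : ℕ, 0 < q → ∀ a : ℕ, Nat.Coprime a q → ∀ A : ℕ,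
    ∃ k₀ : ℕ, ∃ C : ℝ, ∀ x : ℕ, 2 ≤ x →
      (((range x).filter (fun n : ℕ => ¬ ∀ k : ℕ, k₀ ≤ k → 2 * k ≤ n →
        ∃ p : ℕ, p.Prime ∧ p % q = a % q ∧ k < p ∧ p ∣ n.choose k)).card : ℝ) ≤
      C * (x / Real.log x ^ A) := by
  intro q hq a ha A
  haveI : NeZero q := ⟨hq.ne'⟩
  obtain ⟨k₀, C, h⟩ := Pool.Agent.Mos26.sparse_all q (a : ZMod q)
    ((ZMod.isUnit_iff_coprime a q).2 ha) A
  refine ⟨k₀, C, fun x hx => ?_⟩
  refine le_trans (le_of_eq ?_) (h x hx)
  congr 2
  refine Finset.filter_congr fun n _ => ?_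
  push Not
  refine exists_congr fun k => and_congr_right fun _ => and_congr_right fun _ =>
    forall_congr' fun p => forall_congr' fun _ => ?_
  rw [ZMod.natCast_eq_natCast_iff']

end Pool.Agent.Results.MP_73ba67_nt.AlmostAll
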