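import Mathlib
import Pool.Agent.Mos26.Range3

set_option autoImplicit false

open Finset Filter

namespace Pool.Agent.Results.MP_73ba67_nt.PolynomialRange

/-- For every modulus `q` there is `c > 0` such that for every residue class `a` coprime to `q` and
every exponent `C`, for all sufficiently large `k` and all `n` with `2 k ≤ n ≤ k ^ C`, the binomial
coefficient `binom(n, k)` has at least `c k / log k` prime divisors `p ≡ a (mod q)` with `p > k`. -/
theorem result : ∀ q : ℕ, 0 < q → ∃ c : ℝ, 0 < c ∧ ∀ a : ℕ, Nat.Coprime a q → ∀ C : ℕ,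
    ∃ k₀ : ℕ, ∀ k : ℕ, k₀ ≤ k → ∀ n : ℕ, 2 * k ≤ n → n ≤ k ^ C →
      c * (k / Real.log k) ≤
        (((n.choose k).primeFactors.filter (fun p : ℕ => p % q = a % q ∧ k < p)).card : ℝ) := by
  intro q hq
  haveI : NeZero q := ⟨hq.ne'⟩
  have hf0 : 0 < q.totient := Nat.totient_pos.mpr hq
  have hf : (0:ℝ) < q.totient := by exact_mod_cast hf0
  refine ⟨1 / (8192 * (q.totient:ℝ) ^ 2), by positivity, fun a ha C => ?_⟩
  obtain ⟨k₀, hk₀⟩ := eventually_atTop.1 (Pool.Agent.Mos26.range_count q (a : ZMod q)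
    ((ZMod.isUnit_iff_coprime a q).2 ha) C)
  refine ⟨k₀, fun k hk n hn hnC => ?_⟩
  have h := hk₀ k hk n hn hnC
  have h1 : (n.choose k).primeFactors.filter (fun p : ℕ => (p : ZMod q) = (a : ZMod q) ∧ k < p) =
      (n.choose k).primeFactors.filter (fun p : ℕ => p % q = a % q ∧ k < p) := by
    refine Finset.filter_congr fun p _ => ?_
    rw [ZMod.natCast_eq_natCast_iff']
  rw [h1] at h
  refine le_trans (le_of_eq ?_) h
  ring

end Pool.Agent.Results.MP_73ba67_nt.PolynomialRange
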